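import Pool.Agent.helper97.BG.PD

/-!
# MP_c563ae_ag, module CNT: the number of standard exponents of level `L`
-/

set_option autoImplicit false

namespace Pool.Agent.helper97.BG

open Filter

namespace CNT

/-! ### Sums over the residues -/

/-- `⌊(s - x + y - z) / 5⌋` -/
def tt (s : ℤ) (x y z : ℕ) : ℤ := (s - x + y - z) / 5

/-- sum of the five `t_l` -/
def fa (s : ℤ) (a b c d e : ℕ) : ℤ :=
  tt s b c d + tt s c d e + tt s d e a + tt s e a b + tt s a b c

/-- sum of the five `t_l ^ 2 - (t_l - t_{l+2}) ^ 2` -/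
def fb (s : ℤ) (a b c d e : ℕ) : ℤ :=
  (tt s b c d ^ 2 - (tt s b c d - tt s d e a) ^ 2) +
  (tt s c d e ^ 2 - (tt s c d e - tt s e a b) ^ 2) +
  (tt s d e a ^ 2 - (tt s d e a - tt s a b c) ^ 2) +
  (tt s e a b ^ 2 - (tt s e a b - tt s b c d) ^ 2) +
  (tt s a b c ^ 2 - (tt s a b c - tt s c d e) ^ 2)

/-- the nested sum -/
def nest (F : ℕ → ℕ → ℕ → ℕ → ℕ → ℤ) : ℤ :=
  ∑ a ∈ Finset.range 5, ∑ b ∈ Finset.range 5, ∑ c ∈ Finset.range 5,
    ∑ d ∈ Finset.range 5, ∑ e ∈ Finset.range 5, F a b c d e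

theorem sumA (s : ℕ) (hs : s < 5) : nest (fa s) = 3125 * ((s : ℤ) - 4) := by
  have : s = 0 ∨ s = 1 ∨ s = 2 ∨ s = 3 ∨ s = 4 := by omega
  rcases this with rfl | rfl | rfl | rfl | rfl <;> decide +kernel

theorem sumB (s : ℕ) (hs : s < 5) : nest (fb s) = 625 * (((s : ℤ) - 2) * (s - 6)) := by
  have : s = 0 ∨ s = 1 ∨ s = 2 ∨ s = 3 ∨ s = 4 := by omega
  rcases this with rfl | rfl | rfl | rfl | rfl <;> decide +kernel

theorem nest_add (F G : ℕ → ℕ → ℕ → ℕ → ℕ → ℤ) :
    nest (fun a b c d e => F a b c d e + G a b c d e) = nest F + nest G := by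
  simp only [nest, Finset.sum_add_distrib]

theorem nest_mul (x : ℤ) (F : ℕ → ℕ → ℕ → ℕ → ℕ → ℤ) :
    nest (fun a b c d e => x * F a b c d e) = x * nest F := by
  simp only [nest, Finset.mul_sum]

theorem nest_const (x : ℤ) : nest (fun _ _ _ _ _ => x) = 3125 * x := by
  simp [nest]
  ring

/-- functions as tuples -/
def tup : (Fin 5 × Fin 5 × Fin 5 × Fin 5 × Fin 5) ≃ (Fin 5 → Fin 5) where
  toFun p := ![p.1, p.2.1, p.2.2.1, p.2.2.2.1, p.2.2.2.2]
  invFun r := (r 0, r 1, r 2, r 3, r 4)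
  left_inv p := rfl
  right_inv r := by
    funext i
    fin_cases i <;> rfl

theorem sum_pi (F : ℕ → ℕ → ℕ → ℕ → ℕ → ℤ) :
    ∑ r : Fin 5 → Fin 5, F (r 0) (r 1) (r 2) (r 3) (r 4) = nest F := by
  rw [← tup.sum_comp]
  simp only [Fintype.sum_prod_type, nest, Finset.sum_range]
  rfl

/-! ### Counting in a triangle -/

/-- triangular numbers -/
def tri (n : ℕ) : ℕ := ∑ i ∈ Finset.range (n + 1), i

theorem tri_two (n : ℕ) : 2 * tri n = n * (n + 1) := by
  have := Finset.sum_range_id_mul_two (n + 1)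
  simp only [Nat.add_sub_cancel] at this
  unfold tri
  linarith

/-- the full triangle -/
def U (A : ℕ) : Finset (ℕ × ℕ) :=
  (Finset.range (A + 1) ×ˢ Finset.range (A + 1)).filter fun p => 1 ≤ p.1 ∧ p.1 + p.2 ≤ A

theorem mem_U {A : ℕ} {p : ℕ × ℕ} : p ∈ U A ↔ 1 ≤ p.1 ∧ p.1 + p.2 ≤ A := by
  simp only [U, Finset.mem_filter, Finset.mem_product, Finset.mem_range]
  constructor
  · exact fun h => h.2
  · intro h
    exact ⟨⟨by omega, by omega⟩, h⟩

theorem card_U : ∀ A : ℕ, (U A).card = tri A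
  | 0 => by
    have : U 0 = ∅ := by
      ext p
      rw [mem_U]
      simp
      omega
    rw [this]
    simp [tri]
  | A + 1 => by
    have h1 : U (A + 1) = U A ∪ (Finset.range (A + 1)).image (fun j => (j + 1, A - j)) := by
      ext ⟨a, b⟩
      simp only [Finset.mem_union, mem_U, Finset.mem_image, Finset.mem_range, Prod.mk.injEq]
      constructor
      · rintro ⟨h1, h2⟩
        by_cases h : a + b ≤ A
        · exact Or.inl ⟨h1, h⟩
        · exact Or.inr ⟨a - 1, by omega, by omega, by omega⟩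
      · rintro (⟨h1, h2⟩ | ⟨j, h1, h2, h3⟩)
        · exact ⟨h1, by omega⟩
        · exact ⟨by omega, by omega⟩
    have h2 : Disjoint (U A) ((Finset.range (A + 1)).image (fun j => (j + 1, A - j))) := by
      rw [Finset.disjoint_left]
      rintro ⟨a, b⟩ h3 h4
      simp only [mem_U, Finset.mem_image, Finset.mem_range, Prod.mk.injEq] at h3 h4
      obtain ⟨j, h5, h6, h7⟩ := h4
      omega
    rw [h1, Finset.card_union_of_disjoint h2, card_U A, Finset.card_image_of_injective]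
    · simp only [Finset.card_range, tri, Finset.sum_range_succ _ (A + 1)]
    · intro i j h
      simp only [Prod.mk.injEq] at h
      omega

/-- the cut triangle -/
def Cf (A B C : ℕ) : Finset (ℕ × ℕ) :=
  (Finset.range (A + 1) ×ˢ Finset.range (A + 1)).filter fun p =>
    1 ≤ p.1 ∧ p.1 ≤ B ∧ p.2 ≤ C ∧ p.1 + p.2 ≤ A

theorem mem_Cf {A B C : ℕ} {p : ℕ × ℕ} :
    p ∈ Cf A B C ↔ 1 ≤ p.1 ∧ p.1 ≤ B ∧ p.2 ≤ C ∧ p.1 + p.2 ≤ A := by
  simp only [Cf, Finset.mem_filter, Finset.mem_product, Finset.mem_range]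
  constructor
  · exact fun h => h.2
  · intro h
    exact ⟨⟨by omega, by omega⟩, h⟩

theorem card_Cf {A B C : ℕ} (h : A ≤ B + C + 1) :
    (Cf A B C).card + tri (A - B) + tri (A - C - 1) = tri A := by
  have h1 : U A = Cf A B C ∪ ((U (A - B)).image (fun p => (p.1 + B, p.2)) ∪
      (U (A - C - 1)).image (fun p => (p.1, p.2 + (C + 1)))) := by
    ext ⟨a, b⟩
    simp only [Finset.mem_union, mem_U, mem_Cf, Finset.mem_image, Prod.mk.injEq, Prod.exists]
    constructor
    · rintro ⟨h1, h2⟩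
      by_cases h3 : a ≤ B
      · by_cases h4 : b ≤ C
        · exact Or.inl ⟨h1, h3, h4, h2⟩
        · exact Or.inr (Or.inr ⟨a, b - (C + 1), by omega, by omega⟩)
      · exact Or.inr (Or.inl ⟨a - B, b, by omega, by omega⟩)
    · rintro (h3 | ⟨a', b', h3, h4, h5⟩ | ⟨a', b', h3, h4, h5⟩)
      · exact ⟨by omega, by omega⟩
      · exact ⟨by omega, by omega⟩
      · exact ⟨by omega, by omega⟩
  have h2 : Disjoint (Cf A B C) ((U (A - B)).image (fun p => (p.1 + B, p.2)) ∪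
      (U (A - C - 1)).image (fun p => (p.1, p.2 + (C + 1)))) := by
    rw [Finset.disjoint_left]
    rintro ⟨a, b⟩ h3 h4
    simp only [Finset.mem_union, mem_U, mem_Cf, Finset.mem_image, Prod.mk.injEq,
      Prod.exists] at h3 h4
    rcases h4 with ⟨a', b', h4, h5, h6⟩ | ⟨a', b', h4, h5, h6⟩ <;> omega
  have h3 : Disjoint ((U (A - B)).image (fun p => (p.1 + B, p.2)))
      ((U (A - C - 1)).image (fun p => (p.1, p.2 + (C + 1)))) := by
    rw [Finset.disjoint_left]
    rintro ⟨a, b⟩ h3 h4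
    simp only [mem_U, Finset.mem_image, Prod.mk.injEq, Prod.exists] at h3 h4
    obtain ⟨a', b', h5, h6, h7⟩ := h3
    obtain ⟨a'', b'', h8, h9, h10⟩ := h4
    omega
  have h4 := congrArg Finset.card h1
  rw [card_U, Finset.card_union_of_disjoint h2, Finset.card_union_of_disjoint h3,
    Finset.card_image_of_injective, Finset.card_image_of_injective, card_U, card_U] at h4
  · omega
  · rintro ⟨a, b⟩ ⟨a', b'⟩ h
    simp only [Prod.mk.injEq] at h ⊢
    omega
  · rintro ⟨a, b⟩ ⟨a', b'⟩ h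
    simp only [Prod.mk.injEq] at h ⊢
    omega

theorem tri_pair (x y : ℕ) :
    2 * ((tri (x - y) : ℤ) + tri (y - x - 1)) = ((y : ℤ) - x) ^ 2 - (y - x) := by
  have h1 := tri_two (x - y)
  have h2 := tri_two (y - x - 1)
  rcases le_or_gt y x with h | h
  · obtain ⟨c, rfl⟩ := Nat.exists_eq_add_of_le h
    have e1 : y + c - y = c := by omega
    have e2 : y - (y + c) - 1 = 0 := by omega
    rw [e1] at h1 ⊢
    rw [e2] at h2 ⊢
    zify at h1 h2
    push_cast
    linarith [h1, h2]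
  · obtain ⟨c, rfl⟩ := Nat.exists_eq_add_of_lt h
    have e1 : x - (x + c + 1) = 0 := by omega
    have e2 : x + c + 1 - x - 1 = c := by omega
    rw [e1] at h1 ⊢
    rw [e2] at h2 ⊢
    zify at h1 h2
    push_cast
    linarith [h1, h2]

/-! ### The exponents `q` -/

/-- the conditions on `q = n / 5` -/
def P (T : Fin 5 → ℕ) (q : Fin 5 → ℕ) : Prop :=
  (∀ i, q i = 0 ∨ q (i + 1) = 0) ∧ ∀ l, q (l + 1) + q (l + 3) ≤ T l + q (l + 2)

/-- `a e_i + b e_{i+2}` -/
def ph (i : Fin 5) (p : ℕ × ℕ) : Fin 5 → ℕ := fun j => if j = i then p.1 else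
  if j = i + 2 then p.2 else 0

theorem P_ph {T : Fin 5 → ℕ} {i : Fin 5} {p : ℕ × ℕ}
    (h : p ∈ Cf (T (i + 4)) (T (i + 2)) (T (i + 1))) : P T (ph i p) := by
  rw [mem_Cf] at h
  obtain ⟨h1, h2, h3, h4⟩ := h
  constructor
  · intro j
    fin_cases i <;> fin_cases j <;> simp [ph]
  · intro l
    fin_cases i <;> fin_cases l <;> simp [ph] at * <;> omega

theorem exists_ph {T q : Fin 5 → ℕ} (h : P T q) (hq : q ≠ 0) :
    ∃ i, ∃ p ∈ Cf (T (i + 4)) (T (i + 2)) (T (i + 1)), q = ph i p := by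
  obtain ⟨h1, h2⟩ := h
  obtain ⟨i, hi, hi3⟩ : ∃ i, q i ≠ 0 ∧ q (i + 3) = 0 := by
    by_contra hcon
    push Not at hcon
    apply hq
    have g : ∀ i, q i = 0 := by
      intro i
      by_contra hi
      have e1 := hcon i hi
      have e2 := hcon _ e1
      have e3 : i + 3 + 3 = i + 1 := by
        fin_cases i <;> rfl
      rw [e3] at e2
      rcases h1 i with h | h
      · exact hi h
      · exact e2 h
    exact funext g
  refine ⟨i, (q i, q (i + 2)), ?_, ?_⟩
  · rw [mem_Cf]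
    have c1 := h1 i
    have c2 := h1 (i + 4)
    have c3 := h2 (i + 4)
    have c4 := h2 (i + 2)
    have c5 := h2 (i + 1)
    fin_cases i <;> simp at * <;> omega
  · have c1 := h1 i
    have c2 := h1 (i + 4)
    funext j
    fin_cases i <;> fin_cases j <;> simp [ph] at * <;> omega

theorem ph_inj {i i' : Fin 5} {p p' : ℕ × ℕ} (hp : 1 ≤ p.1) (hp' : 1 ≤ p'.1)
    (h : ph i p = ph i' p') : i = i' ∧ p = p' := by
  have e : ∀ j, ph i p j = ph i' p' j := fun j => congrFun h j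
  obtain ⟨a, b⟩ := p
  obtain ⟨a', b'⟩ := p'
  have e0 := e 0
  have e1 := e 1
  have e2 := e 2
  have e3 := e 3
  have e4 := e 4
  fin_cases i <;> fin_cases i' <;> simp [ph] at * <;> omega

theorem ph_ne {i : Fin 5} {p : ℕ × ℕ} (hp : 1 ≤ p.1) : ph i p ≠ 0 := by
  intro h
  have := congrFun h i
  simp [ph] at this
  omega

open Classical in
theorem card_P (T : Fin 5 → ℕ) :
    Nat.card {q // P T q} = 1 + ∑ i, (Cf (T (i + 4)) (T (i + 2)) (T (i + 1))).card := by
  have hmem : ∀ q, q ∈ insert (0 : Fin 5 → ℕ) (Finset.univ.biUnion fun i =>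
      (Cf (T (i + 4)) (T (i + 2)) (T (i + 1))).image (ph i)) ↔ P T q := by
    intro q
    simp only [Finset.mem_insert, Finset.mem_biUnion, Finset.mem_univ, true_and, Finset.mem_image]
    constructor
    · rintro (rfl | ⟨i, p, hp, rfl⟩)
      · exact ⟨fun i => Or.inl rfl, fun l => by simp⟩
      · exact P_ph hp
    · intro h
      by_cases hq : q = 0
      · exact Or.inl hq
      · obtain ⟨i, p, hp, hh⟩ := exists_ph h hq
        exact Or.inr ⟨i, p, hp, hh.symm⟩
  rw [Nat.subtype_card _ hmem, Finset.card_insert_of_notMem, Finset.card_biUnion, Nat.add_comm]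
  · congr 1
    refine Finset.sum_congr rfl fun i _ => ?_
    apply Finset.card_image_of_injOn
    intro p hp p' hp' h
    have h1 := mem_Cf.1 (Finset.mem_coe.1 hp)
    have h2 := mem_Cf.1 (Finset.mem_coe.1 hp')
    exact (ph_inj h1.1 h2.1 h).2
  · intro i _ i' _ hne
    rw [Function.onFun, Finset.disjoint_left]
    intro q h1 h2
    rw [Finset.mem_image] at h1 h2
    obtain ⟨p, hp, rfl⟩ := h1
    obtain ⟨p', hp', h⟩ := h2
    exact hne (ph_inj (mem_Cf.1 hp').1 (mem_Cf.1 hp).1 h).1.symm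
  · simp only [Finset.mem_biUnion, Finset.mem_univ, true_and, Finset.mem_image, not_exists, not_and]
    intro i p hp h
    exact ph_ne (mem_Cf.1 hp).1 h

theorem card_P_two {T : Fin 5 → ℕ} (hT : ∀ i, T (i + 4) ≤ T (i + 2) + T (i + 1) + 1) :
    2 * (Nat.card {q // P T q} : ℤ) = 2 + ∑ l, ((T l : ℤ) ^ 2 + T l - ((T l : ℤ) - T (l + 2)) ^ 2) := by
  rw [card_P]
  have h1 : ∀ i, ((Cf (T (i + 4)) (T (i + 2)) (T (i + 1))).card : ℤ) =
      tri (T (i + 4)) - tri (T (i + 4) - T (i + 2)) - tri (T (i + 4) - T (i + 1) - 1) := by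
    intro i
    have := card_Cf (hT i)
    zify at this
    linarith
  push_cast
  simp_rw [h1]
  have t : ∀ n : ℕ, 2 * (tri n : ℤ) = (n : ℤ) * (n + 1) := by
    intro n
    exact_mod_cast tri_two n
  have p := fun x y : ℕ => tri_pair x y
  simp only [Fin.sum_univ_five]
  simp only [zero_add, Fin.reduceAdd]
  have t0 := t (T 0)
  have t1 := t (T 1)
  have t2 := t (T 2)
  have t3 := t (T 3)
  have t4 := t (T 4)
  have p0 := p (T 2) (T 0)
  have p1 := p (T 3) (T 1)
  have p2 := p (T 4) (T 2)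
  have p3 := p (T 0) (T 3)
  have p4 := p (T 1) (T 4)
  linarith

/-- the bounds `T_l` -/
def Tn (L : ℕ) (r : Fin 5 → Fin 5) (l : Fin 5) : ℕ :=
  (L + (r (l + 2)).val - (r (l + 1)).val - (r (l + 3)).val) / 5

theorem std_iff (r : Fin 5 → Fin 5) (q : Fin 5 → ℕ) :
    Std (fun i => (r i).val + 5 * q i) ↔ ∀ i, q i = 0 ∨ q (i + 1) = 0 := by
  unfold Std
  refine forall_congr' fun i => ?_
  have h1 := (r i).isLt
  have h2 := (r (i + 1)).isLt
  simp only []
  omega

theorem lev_iff {L : ℕ} (hL : 8 ≤ L) (r : Fin 5 → Fin 5) (q : Fin 5 → ℕ) :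
    Lev L (fun i => (r i).val + 5 * q i) ↔ ∀ l, q (l + 1) + q (l + 3) ≤ Tn L r l + q (l + 2) := by
  unfold Lev Tn
  refine forall_congr' fun l => ?_
  have h1 := (r (l + 1)).isLt
  have h2 := (r (l + 2)).isLt
  have h3 := (r (l + 3)).isLt
  simp only []
  omega

/-- division with remainder -/
def dm {L : ℕ} (hL : 8 ≤ L) : {n : Fin 5 → ℕ // Std n ∧ Lev L n} ≃
    Σ r : Fin 5 → Fin 5, {q : Fin 5 → ℕ // P (Tn L r) q} where
  toFun n := ⟨fun i => ⟨n.1 i % 5, Nat.mod_lt _ (by norm_num)⟩, ⟨fun i => n.1 i / 5, by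
    have e : (fun i => n.1 i % 5 + 5 * (n.1 i / 5)) = n.1 := funext fun i => Nat.mod_add_div _ _
    have h1 := n.2.1
    have h2 := n.2.2
    rw [← e] at h1 h2
    exact ⟨(std_iff (fun i => ⟨n.1 i % 5, Nat.mod_lt _ (by norm_num)⟩) _).1 h1,
      (lev_iff hL (fun i => ⟨n.1 i % 5, Nat.mod_lt _ (by norm_num)⟩) _).1 h2⟩⟩⟩
  invFun x := ⟨fun i => (x.1 i).val + 5 * x.2.1 i, (std_iff x.1 x.2.1).2 x.2.2.1,
    (lev_iff hL x.1 x.2.1).2 x.2.2.2⟩
  left_inv n := by
    apply Subtype.ext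
    funext i
    exact Nat.mod_add_div _ _
  right_inv x := by
    obtain ⟨r, q, hq⟩ := x
    have e1 : (fun i => (⟨((r i).val + 5 * q i) % 5, Nat.mod_lt _ (by norm_num)⟩ : Fin 5)) = r := by
      funext i
      apply Fin.ext
      have := (r i).isLt
      simp only []
      omega
    have e2 : (fun i => ((r i).val + 5 * q i) / 5) = q := by
      funext i
      have := (r i).isLt
      omega
    refine Sigma.ext e1 ?_
    simp only []
    have e3 : ∀ (r' : Fin 5 → Fin 5) (q' : Fin 5 → ℕ) (hq' : P (Tn L r') q'), r' = r → q' = q →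
        HEq (⟨q', hq'⟩ : {q : Fin 5 → ℕ // P (Tn L r') q}) (⟨q, hq⟩ : {q : Fin 5 → ℕ // P (Tn L r) q}) := by
      rintro r' q' hq' rfl rfl
      rfl
    exact e3 _ _ _ e1 e2

theorem P_finite (T : Fin 5 → ℕ) : Finite {q // P T q} := by
  apply Nat.finite_of_card_ne_zero
  rw [card_P]
  omega

theorem hcount_sum {L : ℕ} (hL : 8 ≤ L) :
    hcount L = ∑ r : Fin 5 → Fin 5, Nat.card {q : Fin 5 → ℕ // P (Tn L r) q} := by
  unfold hcount
  rw [Nat.card_congr (dm hL)]
  have := fun r : Fin 5 → Fin 5 => P_finite (Tn L r)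
  rw [Nat.card_sigma]

theorem Tn_eq {M s : ℕ} (hM : 2 ≤ M) (r : Fin 5 → Fin 5) (l : Fin 5) :
    (Tn (5 * M + s) r l : ℤ) =
      M + tt s (r (l + 1)).val (r (l + 2)).val (r (l + 3)).val := by
  unfold Tn tt
  have h1 := (r (l + 1)).isLt
  have h2 := (r (l + 2)).isLt
  have h3 := (r (l + 3)).isLt
  omega

theorem two_hcount {M s : ℕ} (hM : 6 ≤ M) (hs : s < 5) :
    2 * (hcount (5 * M + s) : ℤ) = 625 * ((5 * M + s - 1) * (5 * M + s - 2)) := by
  rw [hcount_sum (by omega)]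
  push_cast
  rw [Finset.mul_sum]
  have h1 : ∀ r : Fin 5 → Fin 5, 2 * (Nat.card {q : Fin 5 → ℕ // P (Tn (5 * M + s) r) q} : ℤ) =
      (fun a b c d e => (2 + 5 * (M : ℤ) ^ 2 + 5 * M) + ((2 * M + 1) * fa s a b c d e +
        fb s a b c d e)) (r 0).val (r 1).val (r 2).val (r 3).val (r 4).val := by
    intro r
    rw [card_P_two]
    · simp only [Tn_eq (show 2 ≤ M by omega)]
      simp only [Fin.sum_univ_five]
      simp only [zero_add, Fin.reduceAdd, fa, fb]
      ring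
    · intro i
      have a1 := (r (i + 4 + 1)).isLt
      have a2 := (r (i + 4 + 2)).isLt
      have a3 := (r (i + 4 + 3)).isLt
      have b1 := (r (i + 2 + 1)).isLt
      have b2 := (r (i + 2 + 2)).isLt
      have b3 := (r (i + 2 + 3)).isLt
      have c1 := (r (i + 1 + 1)).isLt
      have c2 := (r (i + 1 + 2)).isLt
      have c3 := (r (i + 1 + 3)).isLt
      unfold Tn
      omega
  rw [Finset.sum_congr rfl fun r _ => h1 r, sum_pi (fun a b c d e => (2 + 5 * (M : ℤ) ^ 2 + 5 * M) +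
    ((2 * M + 1) * fa s a b c d e + fb s a b c d e)),
    nest_add (fun _ _ _ _ _ => 2 + 5 * (M : ℤ) ^ 2 + 5 * M)
      (fun a b c d e => (2 * M + 1) * fa s a b c d e + fb s a b c d e), nest_const,
    nest_add (fun a b c d e => (2 * M + 1) * fa s a b c d e) (fb s),
    nest_mul (2 * M + 1) (fa s), sumA s hs, sumB s hs]
  ring

end CNT

theorem hcount_eq : ∀ᶠ L : ℕ in atTop, (hcount L : ℚ) = 625 * ((L - 1) * (L - 2)) / 2 := by
  filter_upwards [eventually_ge_atTop 30] with L hL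
  have h := CNT.two_hcount (M := L / 5) (s := L % 5) (by omega) (Nat.mod_lt _ (by norm_num))
  rw [Nat.div_add_mod] at h
  have e : (5 : ℤ) * (L / 5 : ℕ) + (L % 5 : ℕ) = L := by exact_mod_cast Nat.div_add_mod L 5
  have h2 : 2 * (hcount L : ℤ) = 625 * (((L : ℤ) - 1) * ((L : ℤ) - 2)) := by
    rw [h, ← e]
  have h3 : 2 * (hcount L : ℚ) = 625 * (((L : ℚ) - 1) * ((L : ℚ) - 2)) := by exact_mod_cast h2
  linarith

end Pool.Agent.helper97.BG
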